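import Pool.Agent.H547.V1.Stm
import Pool.Agent.H547.Harm

set_option autoImplicit false
set_option linter.unusedSectionVars false

/-!
Part (b) of MP_58376a modulo the third power of `p`.
-/

namespace Pool.Agent.H404.SUN35

open Finset Pool.Agent.R439.PL Pool.Agent.H547 Pool.Agent.H547.V1
open scoped Nat

variable {p : ℕ} [hp : Fact p.Prime]

theorem prod_lin {n : ℕ} (hn : n < p) {c : ℚ} (hc : c ∈ Zp p) :
    I p 2 (∏ i ∈ range n, (1 + c * p / ((i : ℚ) + 1)) - (1 + c * p * H n 1)) := by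
  induction n with
  | zero =>
    rw [prod_range_zero, H_zero]
    exact icg I.zero (by ring)
  | succ n ih =>
    have ih' := ih (by omega)
    rw [prod_range_succ, H_succ]
    have hu := uSucc (p := p) (i := n) (n := n + 1) (by omega) hn
    have hH := H_mem (p := p) (n := n) (by omega) 1
    have hcu : c * p / ((n : ℚ) + 1) ∈ Zp p := dmem (mul_mem hc p_mem) hu
    have h1 := ih'.mulR (add_mem (one_mem _) hcu)
    have h2 : I p 2 (c * p * H n 1 * (c * p / ((n : ℚ) + 1))) :=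
      ⟨c * H n 1 * (c / ((n : ℚ) + 1)), mul_mem (mul_mem hc hH) (dmem hc hu), by ring⟩
    refine icg (h1.add h2) ?_
    rw [pow_one]
    ring

/-- `C(p-1,k)` as a product -/
theorem choose_prod {n : ℕ} (hn : p = 2 * n + 1) : ∀ k : ℕ, k < p →
    (((2 * n).choose k : ℕ) : ℚ) = (-1) ^ k * ∏ i ∈ range k, (1 + (-1) * p / ((i : ℚ) + 1)) := by
  intro k
  induction k with
  | zero => intro _; simp
  | succ k ih =>
    intro hk
    rw [prod_range_succ, pow_succ]
    have ih' := ih (by omega)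
    have h1 := Nat.choose_succ_right_eq (2 * n) k
    have h2 : (((2 * n).choose (k + 1) : ℕ) : ℚ) * ((k : ℚ) + 1) =
        (((2 * n).choose k : ℕ) : ℚ) * ((p : ℚ) - 1 - k) := by
      have h3 : ((2 * n - k : ℕ) : ℚ) = (p : ℚ) - 1 - k := by
        rw [Nat.cast_sub (by omega), hn]
        push_cast
        ring
      rw [← h3]
      exact_mod_cast h1
    have h4 : (k : ℚ) + 1 ≠ 0 := by positivity
    have h5 : (((2 * n).choose (k + 1) : ℕ) : ℚ) =
        (((2 * n).choose k : ℕ) : ℚ) * ((p : ℚ) - 1 - k) / ((k : ℚ) + 1) := by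
      rw [eq_div_iff h4, h2]
    rw [h5, ih']
    field_simp
    ring

theorem choose_mod2 {n : ℕ} (hn : p = 2 * n + 1) (k : ℕ) (hk : k < p) :
    I p 2 ((((2 * n).choose k : ℕ) : ℚ) - (-1) ^ k * (1 - p * H k 1)) := by
  rw [choose_prod hn k hk]
  have h := (prod_lin (p := p) hk (c := -1) (neg_mem (one_mem _))).mulL
    (pow_mem (neg_mem (one_mem (Zp p))) k)
  exact icg h (by ring)

theorem choose_mod1 {n : ℕ} (hn : p = 2 * n + 1) (k : ℕ) (hk : k < p) :
    I p 1 ((((2 * n).choose k : ℕ) : ℚ) - (-1) ^ k) := by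
  have h := (choose_mod2 hn k hk).mono (show 1 ≤ 2 by norm_num)
  have h2 : I p 1 ((-1) ^ k * (p * H k 1)) :=
    ((I_p (p := p)).mulR (H_mem hk 1)).mulL (pow_mem (neg_mem (one_mem (Zp p))) k)
  exact icg (h.sub h2) (by ring)

theorem Hp1 {n : ℕ} (hn : p = 2 * n + 1) (h3 : 3 < p) : I p 1 (H (2 * n) 1) := by
  have h := (relC1 hn).mono (show 1 ≤ 4 by norm_num)
  have m2 := H_mem (p := p) (n := 2 * n) (by omega) 2
  have m3 := H_mem (p := p) (n := 2 * n) (by omega) 3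
  have m4 := H_mem (p := p) (n := 2 * n) (by omega) 4
  have hp1 := p_mem (p := p)
  have h2 : I p 1 (p * (H (2 * n) 2 + p * H (2 * n) 3 + p ^ 2 * H (2 * n) 4)) :=
    (I_p (p := p)).mulR (add_mem (add_mem m2 (mul_mem hp1 m3)) (mul_mem (pow_mem hp1 2) m4))
  have h5 : I p 1 (2 * H (2 * n) 1) := icg (h.sub h2) (by ring)
  exact (u2 (p := p) (by omega)).cancel h5

theorem choose_prod' : ∀ k : ℕ,
    (((p + k).choose k : ℕ) : ℚ) = ∏ i ∈ range k, (1 + 1 * p / ((i : ℚ) + 1)) := by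
  intro k
  induction k with
  | zero => simp
  | succ k ih =>
    rw [prod_range_succ, ← ih]
    have h1 := Nat.add_one_mul_choose_eq (p + k) k
    have h2 : (((p + (k + 1)).choose (k + 1) : ℕ) : ℚ) * ((k : ℚ) + 1) =
        ((p : ℚ) + k + 1) * (((p + k).choose k : ℕ) : ℚ) := by
      have : p + (k + 1) = p + k + 1 := by ring
      rw [this]
      exact_mod_cast h1.symm
    have h4 : (k : ℚ) + 1 ≠ 0 := by positivity
    have h5 : (((p + (k + 1)).choose (k + 1) : ℕ) : ℚ) =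
        ((p : ℚ) + k + 1) * (((p + k).choose k : ℕ) : ℚ) / ((k : ℚ) + 1) := by
      rw [eq_div_iff h4, h2]
    rw [h5]
    field_simp
    ring

theorem central {n : ℕ} (hn : p = 2 * n + 1) (h3 : 3 < p) :
    I p 2 ((((2 * p).choose p : ℕ) : ℚ) - 2) := by
  have h1 := choose_prod' (p := p) (2 * n + 1)
  rw [prod_range_succ] at h1
  have h2 : ((2 * n : ℕ) : ℚ) + 1 = p := by rw [hn]; push_cast; ring
  have hp0 := p_ne (p := p)
  rw [h2, one_mul, div_self hp0] at h1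
  have h4 : 2 * p = p + (2 * n + 1) := by omega
  have h5 : (2 * p).choose p = (p + (2 * n + 1)).choose (2 * n + 1) := by
    rw [← hn]
    congr 1
    omega
  rw [h5, h1]
  have h6 := prod_lin (p := p) (n := 2 * n) (by omega) (c := 1) (one_mem _)
  have h7 : I p 2 (p * H (2 * n) 1) := by
    have := (I_p (p := p)).mul (Hp1 hn h3)
    exact this
  exact icg ((h6.add h7).mulR (nm 2)) (by ring_nf)

theorem halfEQ (h3 : 3 < p) {m x : ℚ} (hm : m ∈ Zp p) (hx : x = ((p : ℚ) - m) / 2) :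
    EQ p 1 x (-m / 2) := by
  have u := u2 (p := p) (by omega)
  rw [hx]
  refine ⟨dmem (sub_mem p_mem hm) u, dmem (neg_mem hm) u, ?_⟩
  exact icg ((I_p (p := p)).mulR (y := 1 / 2) (dmem (one_mem _) u)) (by ring)

/-- the terms of the sum -/
def T (n i : ℕ) : ℚ := (2 * (i : ℚ) + 1) * (((2 * n + 3).choose (n - 3 * i) : ℕ) : ℚ) *
  (((2 * n + 1).choose (n - i) : ℕ) : ℚ)

/-- the terms modulo `p^3` -/
def w (i : ℕ) : ℚ := 32 / ((6 * (i : ℚ) + 1) * (6 * i + 3) * (6 * i + 5))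

theorem absorb (n k : ℕ) : (((n + 1).choose (k + 1) : ℕ) : ℚ) =
    ((n : ℚ) + 1) * ((n.choose k : ℕ) : ℚ) / ((k : ℚ) + 1) := by
  have h4 : (k : ℚ) + 1 ≠ 0 := by positivity
  rw [eq_div_iff h4]
  have h1 := Nat.add_one_mul_choose_eq n k
  exact_mod_cast h1.symm

theorem term_small {n : ℕ} (hn : p = 2 * n + 1) (h3 : 3 < p) (i r : ℕ) (hr : n = 3 * i + 3 + r) :
    I p 3 (T n i - p ^ 2 * w i) := by
  have hP : (p : ℚ) = 2 * n + 1 := by rw [hn]; push_cast; ring
  have hnr : (n : ℚ) = 3 * i + 3 + r := by rw [hr]; push_cast; ring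
  set s : ℕ := 2 * i + r + 2 with hs
  have hsq : (s : ℚ) = 2 * i + r + 2 := by rw [hs]; push_cast; ring
  have e1 : n - 3 * i = r + 3 := by omega
  have e2 : n - i = s + 1 := by omega
  have hT : T n i = p ^ 2 * ((2 * (i : ℚ) + 1) * ((p + 2) * (p + 1)) /
      (((s : ℚ) + 1) * (((r : ℚ) + 3) * ((r + 2) * (r + 1)))) *
        ((((2 * n).choose r : ℕ) : ℚ) * (((2 * n).choose s : ℕ) : ℚ))) := by
    unfold T
    rw [e1, e2, absorb (2 * n) s, absorb (2 * n + 2) (r + 2), absorb (2 * n + 1) (r + 1),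
      absorb (2 * n) r, hP]
    have a1 : (r : ℚ) + 1 ≠ 0 := by positivity
    have a2 : (r : ℚ) + 2 ≠ 0 := by positivity
    have a3 : (r : ℚ) + 3 ≠ 0 := by positivity
    have a4 : (s : ℚ) + 1 ≠ 0 := by positivity
    push_cast
    have a5 : (r : ℚ) + 2 + 1 = r + 3 := by ring
    have a6 : (r : ℚ) + 1 + 1 = r + 2 := by ring
    rw [a5, a6]
    field_simp
    ring
  -- units
  have um : ∀ m : ℕ, 0 < m → m < p → U p (m : ℚ) := fun m h0 h1 => uNat h0 h1
  have u1 : U p ((s : ℚ) + 1) := by exact_mod_cast um (s + 1) (by omega) (by omega)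
  have u2' : U p ((r : ℚ) + 3) := by exact_mod_cast um (r + 3) (by omega) (by omega)
  have u3' : U p ((r : ℚ) + 2) := by exact_mod_cast um (r + 2) (by omega) (by omega)
  have u4 : U p ((r : ℚ) + 1) := by exact_mod_cast um (r + 1) (by omega) (by omega)
  have hA := choose_mod1 hn r (by omega)
  have hB := choose_mod1 hn s (by omega)
  have hpow : ((-1 : ℚ)) ^ r * (-1) ^ s = 1 := by
    rw [hs, ← pow_add]
    have : r + (2 * i + r + 2) = 2 * (i + r + 1) := by ring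
    rw [this, pow_mul]
    norm_num
  have eA : EQ p 1 (((2 * n).choose r : ℕ) : ℚ) ((-1) ^ r) :=
    ⟨nat_mem _, pow_mem (neg_mem (one_mem _)) _, hA⟩
  have eB : EQ p 1 (((2 * n).choose s : ℕ) : ℚ) ((-1) ^ s) :=
    ⟨nat_mem _, pow_mem (neg_mem (one_mem _)) _, hB⟩
  have eAB := eA.mul eB
  rw [hpow] at eAB
  have mi : (i : ℚ) ∈ Zp p := nat_mem i
  have f1 : EQ p 1 ((s : ℚ) + 1) (-(2 * (i : ℚ) + 1) / 2) :=
    halfEQ h3 (add_mem (mul_mem (nm 2) mi) (one_mem _)) (by rw [hP, hnr, hsq]; ring)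
  have f2 : EQ p 1 ((r : ℚ) + 3) (-(6 * (i : ℚ) + 1) / 2) :=
    halfEQ h3 (add_mem (mul_mem (nm 6) mi) (one_mem _)) (by rw [hP, hnr]; ring)
  have f3 : EQ p 1 ((r : ℚ) + 2) (-(6 * (i : ℚ) + 3) / 2) :=
    halfEQ h3 (add_mem (mul_mem (nm 6) mi) (nm 3)) (by rw [hP, hnr]; ring)
  have f4 : EQ p 1 ((r : ℚ) + 1) (-(6 * (i : ℚ) + 5) / 2) :=
    halfEQ h3 (add_mem (mul_mem (nm 6) mi) (nm 5)) (by rw [hP, hnr]; ring)
  have g1 : EQ p 1 ((p : ℚ) + 2) 2 := ⟨add_mem p_mem (nm 2), nm 2, icg (I_p (p := p)) (by ring)⟩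
  have g2 : EQ p 1 ((p : ℚ) + 1) 1 :=
    ⟨add_mem p_mem (one_mem _), one_mem _, icg (I_p (p := p)) (by ring)⟩
  have g0 : EQ p 1 (2 * (i : ℚ) + 1) (2 * (i : ℚ) + 1) :=
    EQ.refl (add_mem (mul_mem (nm 2) mi) (one_mem _))
  have key := ((g0.mul (g1.mul g2)).div one_pos (f1.mul (f2.mul (f3.mul f4)))
    (u1.mul (u2'.mul (u3'.mul u4)))).mul eAB
  have key2 := key.2.2
  have hp2 : I p 2 ((p : ℚ) ^ 2) := ⟨1, one_mem _, by ring⟩
  have := hp2.mul key2
  refine icg this ?_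
  rw [hT]
  unfold w
  have b1 : (2 * (i : ℚ) + 1) ≠ 0 := by positivity
  have b2 : (6 * (i : ℚ) + 1) ≠ 0 := by positivity
  have b3 : (6 * (i : ℚ) + 3) ≠ 0 := by positivity
  have b4 : (6 * (i : ℚ) + 5) ≠ 0 := by positivity
  rw [mul_sub]
  congr 2
  field_simp
  norm_num

theorem sum_w (m : ℕ) : ∑ i ∈ range m, w i =
    4 * ((H (6 * m) 1 - H (3 * m) 1 / 2) - (H (2 * m) 1 - H m 1 / 2)) := by
  induction m with
  | zero => simp [H_zero]
  | succ m ih =>
    rw [sum_range_succ, ih]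
    have e6 : 6 * (m + 1) = 6 * m + 1 + 1 + 1 + 1 + 1 + 1 := by ring
    have e3 : 3 * (m + 1) = 3 * m + 1 + 1 + 1 := by ring
    have e2 : 2 * (m + 1) = 2 * m + 1 + 1 := by ring
    rw [e6, e3, e2]
    simp only [H_succ, pow_one]
    push_cast
    have c1 : 1 / (3 * (m : ℚ) + 1) = 2 / (6 * m + 2) := by
      rw [show 6 * (m : ℚ) + 2 = 2 * (3 * m + 1) by ring]
      field_simp
    have c2 : 1 / (3 * (m : ℚ) + 1 + 1) = 2 / (6 * m + 4) := by
      rw [show 6 * (m : ℚ) + 4 = 2 * (3 * m + 1 + 1) by ring]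
      field_simp
    have c3 : 1 / (3 * (m : ℚ) + 2 + 1) = 2 / (6 * m + 6) := by
      rw [show 6 * (m : ℚ) + 6 = 2 * (3 * m + 2 + 1) by ring]
      field_simp
    have c4 : 1 / (2 * (m : ℚ) + 1) = 3 / (6 * m + 3) := by
      rw [show 6 * (m : ℚ) + 3 = 3 * (2 * m + 1) by ring]
      field_simp
    have c5 : 1 / (2 * (m : ℚ) + 1 + 1) = 3 / (6 * m + 6) := by
      rw [show 6 * (m : ℚ) + 6 = 3 * (2 * m + 1 + 1) by ring]
      field_simp
    have c6 : 1 / ((m : ℚ) + 1) = 6 / (6 * m + 6) := by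
      rw [show 6 * (m : ℚ) + 6 = 6 * (m + 1) by ring]
      field_simp
    have c7 : w m = 4 * (1 / (6 * (m : ℚ) + 1) - 2 / (6 * m + 3) + 1 / (6 * m + 5)) := by
      unfold w
      have b2 : (6 * (m : ℚ) + 1) ≠ 0 := by positivity
      have b3 : (6 * (m : ℚ) + 3) ≠ 0 := by positivity
      have b4 : (6 * (m : ℚ) + 5) ≠ 0 := by positivity
      field_simp
      ring
    rw [c1, c2, c3, c4, c5, c6, c7]
    rw [show 6 * (m : ℚ) + 1 + 1 = 6 * m + 2 by ring, show 6 * (m : ℚ) + 2 + 1 = 6 * m + 3 by ring,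
      show 6 * (m : ℚ) + 3 + 1 = 6 * m + 4 by ring, show 6 * (m : ℚ) + 4 + 1 = 6 * m + 5 by ring,
      show 6 * (m : ℚ) + 5 + 1 = 6 * m + 6 by ring]
    ring

theorem sum_small {n : ℕ} (hn : p = 2 * n + 1) (h3 : 3 < p) (m : ℕ) (hm : 3 * m ≤ n) :
    I p 3 (∑ i ∈ range m, T n i - p ^ 2 * ∑ i ∈ range m, w i) := by
  rw [mul_sum, ← sum_sub_distrib]
  refine I.sum fun i hi => ?_
  have := mem_range.1 hi
  exact term_small hn h3 i (n - 3 * i - 3) (by omega)

/-- the sum modulo `p^3` -/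
theorem sum_all (hH6 : S_H6) {n : ℕ} (hn : p = 2 * n + 1) (h3 : 3 < p) :
    I p 3 (∑ i ∈ range (n / 3 + 1), T n i -
      2 * p * (1 - 2 * p * H (p / 3) 1 - 3 / 2 * p)) := by
  have hP : (p : ℚ) = 2 * n + 1 := by rw [hn]; push_cast; ring
  set m := n / 3 with hm
  have hmod : n = 3 * m ∨ n = 3 * m + 2 := by
    have h1 : n = 3 * m ∨ n = 3 * m + 1 ∨ n = 3 * m + 2 := by omega
    rcases h1 with h | h | h
    · exact Or.inl h
    · exfalso
      have h2 : 3 ∣ p := ⟨2 * m + 1, by omega⟩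
      have := (Nat.prime_dvd_prime_iff_eq Nat.prime_three hp.out).1 h2
      omega
    · exact Or.inr h
  have hsmall := sum_small hn h3 m (by omega)
  rw [sum_w] at hsmall
  have hHn := Hp1 hn h3
  have h6 := hH6 p h3
  have hhm : H (p / 3) 1 ∈ Zp p := H_mem (by omega) 1
  have hp2 : I p 2 ((p : ℚ) ^ 2) := ⟨1, one_mem _, by ring⟩
  have hp1 : (p : ℚ) ∈ Zp p := p_mem
  set h := H (p / 3) 1 with hh
  rw [sum_range_succ]
  rcases hmod with hc | hc
  · -- `n = 3 m`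
    have q1 : p / 3 = 2 * m := by omega
    have q2 : p / 2 = 3 * m := by omega
    have q3 : p / 6 = m := by omega
    have q4 : 2 * n = 6 * m := by omega
    rw [q2, q3] at h6
    rw [q4] at hHn
    have hW : I p 1 (4 * ((H (6 * m) 1 - H (3 * m) 1 / 2) - (H (2 * m) 1 - H m 1 / 2)) - (-2 * h)) := by
      refine icg ((hHn.mulL (nm 4)).add (h6.mulL (nm 2))) ?_
      rw [hh, q1]
      ring
    have hW3 := hp2.mul hW
    -- the last term
    obtain ⟨j, hj⟩ : ∃ j, m = j + 1 := ⟨m - 1, by omega⟩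
    have hjP : (p : ℚ) = 6 * j + 7 := by
      have : p = 6 * j + 7 := by omega
      rw [this]; push_cast; ring
    have hu1 : U p ((p : ℚ) - 1) := by
      have := uNat (p := p) (k := p - 1) (by omega) (by omega)
      rwa [Nat.cast_sub (by omega), Nat.cast_one] at this
    have hlast : T n m = p * (((p : ℚ) + 2) / (p - 1)) * (((2 * n).choose (2 * j + 1) : ℕ) : ℚ) := by
      unfold T
      have e1 : n - 3 * m = 0 := by omega
      have e2 : n - m = 2 * j + 1 + 1 := by omega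
      rw [e1, e2, Nat.choose_zero_right, absorb (2 * n) (2 * j + 1), hj]
      have a1 : (p : ℚ) - 1 = 3 * (2 * j + 2) := by rw [hjP]; ring
      have a2 : (2 * (n : ℚ) + 1) = p := hP.symm
      push_cast
      rw [a1, a2]
      have a3 : (p : ℚ) + 2 = 3 * (2 * (j + 1) + 1) := by rw [hjP]; ring
      rw [a3]
      have a4 : (2 * (j : ℚ) + 2) ≠ 0 := by positivity
      have a5 : (2 * (j : ℚ) + 1 + 1) = 2 * j + 2 := by ring
      rw [a5]
      field_simp
    have hch := choose_mod2 hn (2 * j + 1) (by omega)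
    have hodd : ((-1 : ℚ)) ^ (2 * j + 1) = -1 := by
      rw [pow_succ, pow_mul]; norm_num
    rw [hodd] at hch
    have hH1 : H (2 * j + 1) 1 = h - 3 / (p - 1) := by
      have e1 : H (p / 3) 1 = H (2 * j + 1) 1 + 1 / (((2 * j + 1 : ℕ) : ℚ) + 1) ^ 1 := by
        rw [← H_succ]
        congr 1
        omega
      rw [hh, e1]
      have a1 : (p : ℚ) - 1 = 3 * (2 * j + 2) := by rw [hjP]; ring
      rw [a1]
      push_cast
      have a4 : (2 * (j : ℚ) + 2) ≠ 0 := by positivity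
      have a5 : (2 * (j : ℚ) + 1 + 1) = 2 * j + 2 := by ring
      rw [a5]
      field_simp
      ring
    rw [hH1] at hch
    have hL : I p 3 (T n m - 2 * p * (1 - 3 / 2 * p - p * h)) := by
      have k1 : I p 1 (p * (((p : ℚ) + 2) / (p - 1))) :=
        (I_p (p := p)).mulR (dmem (add_mem hp1 (nm 2)) hu1)
      have k2 := k1.mul hch
      have k3 : I p 3 ((p : ℚ) ^ 3 * ((-12 - 3 * h + 3 * p + 3 * p * h) / (p - 1) ^ 2)) := by
        refine ⟨_, dmem ?_ (hu1.pow 2), rfl⟩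
        have hh' : h ∈ Zp p := hhm
        exact add_mem (add_mem (sub_mem (neg_mem (nm 12)) (mul_mem (nm 3) hh'))
          (mul_mem (nm 3) hp1)) (mul_mem (mul_mem (nm 3) hp1) hh')
      refine icg (k2.add k3) ?_
      rw [hlast]
      have a1 := hu1.1
      field_simp
      ring
    refine icg ((hsmall.add hW3).add hL) ?_
    ring
  · -- `n = 3 m + 2`
    have q1 : p / 3 = 2 * m + 1 := by omega
    have q2 : p / 2 = 3 * m + 1 + 1 := by omega
    have q3 : p / 6 = m := by omega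
    have q4 : 2 * n = 6 * m + 1 + 1 + 1 + 1 := by omega
    rw [q2, q3] at h6
    rw [q4] at hHn
    have hmP : (p : ℚ) = 6 * m + 5 := by
      have : p = 6 * m + 5 := by omega
      rw [this]; push_cast; ring
    have huk : ∀ k : ℕ, 0 < k → k < 5 → U p ((p : ℚ) - k) := by
      intro k hk0 hk5
      have := uNat (p := p) (k := p - k) (by omega) (by omega)
      rwa [Nat.cast_sub (by omega)] at this
    have hu2 : U p ((p : ℚ) - 2) := by exact_mod_cast huk 2 (by norm_num) (by norm_num)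
    have hu4 : U p ((p : ℚ) - 4) := by exact_mod_cast huk 4 (by norm_num) (by norm_num)
    have hW : I p 1 (4 * ((H (6 * m) 1 - H (3 * m) 1 / 2) - (H (2 * m) 1 - H m 1 / 2)) -
        (-2 * h - 3)) := by
      have k1 : I p 1 (p * ((3 * p - 14) / (((p : ℚ) - 4) * (p - 2)))) :=
        (I_p (p := p)).mulR (dmem (sub_mem (mul_mem (nm 3) hp1) (nm 14)) (hu4.mul hu2))
      refine icg (((hHn.mulL (nm 4)).add (h6.mulL (nm 2))).add k1) ?_
      rw [hh, q1]
      simp only [H_succ, pow_one]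
      push_cast
      have z1 : (p : ℚ) - 4 = 6 * m + 1 := by rw [hmP]; ring
      have z2 : (p : ℚ) - 2 = 6 * m + 3 := by rw [hmP]; ring
      rw [z1, z2, hmP]
      have c1 : 1 / (3 * (m : ℚ) + 1) = 2 / (6 * m + 2) := by
        rw [show 6 * (m : ℚ) + 2 = 2 * (3 * m + 1) by ring]
        field_simp
      have c2 : 1 / (3 * (m : ℚ) + 1 + 1) = 2 / (6 * m + 4) := by
        rw [show 6 * (m : ℚ) + 4 = 2 * (3 * m + 1 + 1) by ring]
        field_simp
      have c4 : 1 / (2 * (m : ℚ) + 1) = 3 / (6 * m + 3) := by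
        rw [show 6 * (m : ℚ) + 3 = 3 * (2 * m + 1) by ring]
        field_simp
      rw [c1, c2, c4, show 6 * (m : ℚ) + 1 + 1 = 6 * m + 2 by ring,
        show 6 * (m : ℚ) + 2 + 1 = 6 * m + 3 by ring,
        show 6 * (m : ℚ) + 3 + 1 = 6 * m + 4 by ring]
      have b2 : (6 * (m : ℚ) + 1) ≠ 0 := by positivity
      have b3 : (6 * (m : ℚ) + 3) ≠ 0 := by positivity
      have c9 : (6 * (m : ℚ) + 5) * ((3 * (6 * m + 5) - 14) / ((6 * m + 1) * (6 * m + 3))) =
          3 - 4 / (6 * m + 1) + 8 / (6 * m + 3) := by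
        field_simp
        ring
      rw [c9]
      ring
    have hW3 := hp2.mul hW
    have hlast : T n m = p * ((p - 2) * (p + 2) / 2) * (((2 * n).choose (2 * m + 1) : ℕ) : ℚ) := by
      unfold T
      have e1 : n - 3 * m = 1 + 1 := by omega
      have e2 : n - m = 2 * m + 1 + 1 := by omega
      rw [e1, e2, absorb (2 * n) (2 * m + 1), absorb (2 * n + 2) 1, Nat.choose_one_right]
      have a2 : (2 * (n : ℚ) + 1) = p := hP.symm
      push_cast
      have a3 : (2 * (n : ℚ) + 2) = p + 1 := by rw [← a2]; ring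
      rw [a3, a2]
      have a4 : (p : ℚ) + 1 = 3 * (2 * m + 1 + 1) := by rw [hmP]; ring
      have a5 : (p : ℚ) - 2 = 3 * (2 * m + 1) := by rw [hmP]; ring
      rw [a5, a4]
      have a6 : (2 * (m : ℚ) + 1 + 1) ≠ 0 := by positivity
      field_simp
      rw [hmP]
      ring
    have hch := choose_mod2 hn (2 * m + 1) (by omega)
    have hodd : ((-1 : ℚ)) ^ (2 * m + 1) = -1 := by
      rw [pow_succ, pow_mul]; norm_num
    have hH1 : H (2 * m + 1) 1 = h := by rw [hh, q1]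
    rw [hodd, hH1] at hch
    have u2' := u2 (p := p) (by omega)
    have hL : I p 3 (T n m - 2 * p * (1 - p * h)) := by
      have k1 : I p 1 (p * (((p : ℚ) - 2) * (p + 2) / 2)) :=
        (I_p (p := p)).mulR (dmem (mul_mem (sub_mem hp1 (nm 2)) (add_mem hp1 (nm 2))) u2')
      have k2 := k1.mul hch
      have k3 : I p 3 ((p : ℚ) ^ 3 * (-(1 - p * h) / 2)) :=
        ⟨_, dmem (neg_mem (sub_mem (one_mem _) (mul_mem hp1 hhm))) u2', rfl⟩
      refine icg (k2.add k3) ?_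
      rw [hlast]
      ring
    refine icg ((hsmall.add hW3).add hL) ?_
    ring

/-- the prefactor -/
theorem prefactor {n : ℕ} (hn : p = 2 * n + 1) :
    8 / (81 : ℚ) ^ n * ((n : ℚ) + 1) * ((4 * n + 3)! : ℚ) / (((2 * n + 3)! : ℚ) * ((2 * n + 1)! : ℚ)) =
      8 / ((3 : ℚ) ^ (p - 1)) ^ 2 * ((2 * p + 1) / (2 * (p + 2)) * (((2 * p).choose p : ℕ) : ℚ)) := by
  have hP : (p : ℚ) = 2 * n + 1 := by rw [hn]; push_cast; ring
  have e1 : 4 * n + 3 = 2 * p + 1 := by omega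
  have e2 : 2 * n + 3 = p + 1 + 1 := by omega
  have e3 : p - 1 = 2 * n := by omega
  rw [e1, e2, e3, ← hn, Nat.factorial_succ, Nat.factorial_succ, Nat.factorial_succ,
    Nat.cast_choose ℚ (show p ≤ 2 * p by omega), show 2 * p - p = p by omega]
  have h81 : (81 : ℚ) ^ n = ((3 : ℚ) ^ (2 * n)) ^ 2 := by
    rw [← pow_mul, show 2 * n * 2 = 4 * n by ring, pow_mul]
    norm_num
  rw [h81]
  push_cast
  have f0 : ((p ! : ℕ) : ℚ) ≠ 0 := by exact_mod_cast Nat.factorial_ne_zero p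
  have hn1 : (n : ℚ) + 1 = (p + 1) / 2 := by rw [hP]; ring
  rw [hn1]
  have a1 : (p : ℚ) + 1 ≠ 0 := by positivity
  have a2 : (p : ℚ) + 2 ≠ 0 := by positivity
  have a3 : (p : ℚ) + 1 + 1 = p + 2 := by ring
  rw [a3]
  field_simp

/-- part (b) modulo `p^3` -/
theorem S_B_proof : S_B := by
  intro hIB hH3 hH6 p _ h3
  have hodd : ∃ n, p = 2 * n + 1 := by
    rcases Nat.Prime.eq_two_or_odd' (Fact.out : p.Prime) with h | h
    · omega
    · exact h
  obtain ⟨n, hn⟩ := hodd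
  have hn2 : (p - 1) / 2 + 1 = n + 1 := by omega
  rw [hn2, hIB n, prefactor hn]
  have hS := sum_all hH6 hn h3
  have hC := central hn h3
  have ht := hH3 p h3
  have hτu : U p ((3 : ℚ) ^ (p - 1)) := (u3 (p := p) h3).pow _
  have hhm : H (p / 3) 1 ∈ Zp p := H_mem (by omega) 1
  have hp1 : (p : ℚ) ∈ Zp p := p_mem
  set τ : ℚ := (3 : ℚ) ^ (p - 1) with hτ
  set h := H (p / 3) 1 with hh
  set Cc : ℚ := (((2 * p).choose p : ℕ) : ℚ) with hCc
  have hSeq : ∑ i ∈ range (n / 3 + 1), (2 * (i : ℚ) + 1) *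
      (((2 * n + 3).choose (n - 3 * i) : ℕ) : ℚ) * (((2 * n + 1).choose (n - i) : ℕ) : ℚ) =
      ∑ i ∈ range (n / 3 + 1), T n i := rfl
  rw [hSeq]
  set Sg := ∑ i ∈ range (n / 3 + 1), T n i with hSg
  have U2 := u2 (p := p) (by omega)
  have U3 := u3 (p := p) h3
  have c12 : (1 / 2 : ℚ) ∈ Zp p := dmem (one_mem _) U2
  have c23 : (2 / 3 : ℚ) ∈ Zp p := dmem (nm 2) U3
  have c32 : (3 / 2 : ℚ) ∈ Zp p := dmem (nm 3) U2
  have up2 : U p ((p : ℚ) + 2) := by
    apply U_of_not_I (add_mem hp1 (nm 2))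
    intro hx
    have := hx.sub (I_p (p := p))
    rw [add_sub_cancel_left] at this
    exact U2.not_I one_pos this
  -- the factor
  have hFC : I p 2 ((2 * (p : ℚ) + 1) / (2 * (p + 2)) * Cc - (1 / 2 + 3 / 4 * p)) := by
    have k0 : (2 * (p : ℚ) + 1) / (2 * (p + 2)) ∈ Zp p :=
      dmem (add_mem (mul_mem (nm 2) hp1) (one_mem _)) (U2.mul up2)
    have k1 := hC.mulL k0
    have k2 : I p 2 ((p : ℚ) ^ 2 * (-3 / (2 * 2 * (p + 2)))) :=
      ⟨_, dmem (neg_mem (nm 3)) ((U2.mul U2).mul up2), rfl⟩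
    refine icg (k1.add k2) ?_
    have a1 := up2.1
    field_simp
    ring
  have hSg1 : I p 1 Sg := by
    have k1 := hS.mono (show 1 ≤ 3 by norm_num)
    have k2 : I p 1 (2 * p * (1 - 2 * p * h - 3 / 2 * p)) := by
      have : I p 1 (p * (2 * (1 - 2 * p * h - 3 / 2 * p))) :=
        (I_p (p := p)).mulR (mul_mem (nm 2) (sub_mem (sub_mem (one_mem _)
          (mul_mem (mul_mem (nm 2) hp1) hhm)) (mul_mem c32 hp1)))
      exact icg this (by ring)
    exact icg (k1.add k2) (by ring)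
  have hFCS : I p 3 ((2 * (p : ℚ) + 1) / (2 * (p + 2)) * Cc * Sg - p * (1 - 2 * p * h)) := by
    have k1 := hFC.mul hSg1
    have m34 : (1 / 2 + 3 / 4 * p : ℚ) ∈ Zp p := by
      have : (3 / 4 : ℚ) ∈ Zp p := by
        have := dmem (nm (p := p) 3) (U2.mul U2)
        norm_num at this
        exact this
      exact add_mem c12 (mul_mem this hp1)
    have k2 := hS.mulL m34
    have k3 : I p 3 ((p : ℚ) ^ 3 * (3 / 2 * (-2 * h - 3 / 2))) :=
      ⟨_, mul_mem c32 (sub_mem (mul_mem (neg_mem (nm 2)) hhm) c32), rfl⟩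
    refine icg ((k1.add k2).add k3) ?_
    ring
  have hτ3 : I p 2 (τ ^ 3 - (1 - 2 * p * h)) := by
    set g : ℚ := 1 - 2 / 3 * p * h with hg
    have hgm : g ∈ Zp p := sub_mem (one_mem _) (mul_mem (mul_mem c23 hp1) hhm)
    have k1 := ht.mulR (add_mem (add_mem (pow_mem hτu.2.1 2) (mul_mem hτu.2.1 hgm)) (pow_mem hgm 2))
    have k2 : I p 2 ((p : ℚ) ^ 2 * (3 * (2 / 3 * h) ^ 2 - p * (2 / 3 * h) ^ 3)) :=
      ⟨_, sub_mem (mul_mem (nm 3) (pow_mem (mul_mem c23 hhm) 2))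
        (mul_mem hp1 (pow_mem (mul_mem c23 hhm) 3)), rfl⟩
    refine icg (k1.add k2) ?_
    rw [hg]
    ring
  have hfin := (hFCS.sub ((I_p (p := p)).mul hτ3)).mulL
    (dmem (nm (p := p) 8) (hτu.pow 2))
  refine icg hfin ?_
  have a1 := hτu.1
  field_simp
  ring

end Pool.Agent.H404.SUN35
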